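import Mathlib

/-!
# Control functionals for vector capacities

Let `E` be a Banach lattice in which every monotone order bounded sequence converges in norm and
let `μ` be a monotone set function on a σ-algebra with values in `E` and `μ ∅ = 0`.
Then there is a positive functional `f` with `μ ≪ f ∘ μ`.
-/

set_option autoImplicit false

open Filter Topology

namespace Pool.Agent.Results.MP_e24518_an.ControlFunctional

section aux

set_option linter.unusedSectionVars false

variable {E : Type*} [NormedAddCommGroup E] [NormedSpace ℝ E] [Lattice E]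
  [IsOrderedAddMonoid E] [IsOrderedModule ℝ E] [HasSolidNorm E]

lemma smul_pos_part (c : ℝ) (hc : 0 < c) (x : E) : (c • x) ⊔ 0 = c • (x ⊔ 0) := by
  apply le_antisymm
  · apply sup_le
    · exact smul_le_smul_of_nonneg_left le_sup_left hc.le
    · exact smul_nonneg hc.le le_sup_right
  · have h1 : x ⊔ 0 ≤ c⁻¹ • ((c • x) ⊔ 0) := by
      apply sup_le
      · have := smul_le_smul_of_nonneg_left (le_sup_left : c • x ≤ (c • x) ⊔ 0)
          (inv_nonneg.mpr hc.le)
        rwa [smul_smul, inv_mul_cancel₀ hc.ne', one_smul] at this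
      · exact smul_nonneg (inv_nonneg.mpr hc.le) le_sup_right
    have h2 := smul_le_smul_of_nonneg_left h1 hc.le
    rwa [smul_smul, mul_inv_cancel₀ hc.ne', one_smul] at h2

/-- Norm monotone on the positive cone. -/
lemma norm_mono {x y : E} (hx : 0 ≤ x) (hxy : x ≤ y) : ‖x‖ ≤ ‖y‖ := by
  apply norm_le_norm_of_abs_le_abs
  rwa [abs_of_nonneg hx, abs_of_nonneg (hx.trans hxy)]

/-- Positive norming functionals. -/
lemma exists_pos_norming (x₀ : E) (hx₀ : 0 ≤ x₀) :
    ∃ f : E →L[ℝ] ℝ, (∀ x, 0 ≤ x → 0 ≤ f x) ∧ (∀ x, f x ≤ ‖x‖) ∧ f x₀ = ‖x₀‖ := by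
  by_cases h0 : x₀ = 0
  · exact ⟨0, by simp, by simp, by simp [h0]⟩
  let N : E → ℝ := fun x => ‖x ⊔ 0‖
  have N_le : ∀ x, N x ≤ ‖x‖ := by
    intro x
    apply norm_le_norm_of_abs_le_abs
    rw [abs_of_nonneg (le_sup_right : (0 : E) ≤ x ⊔ 0)]
    exact sup_le (le_abs_self x) (abs_nonneg x)
  have N_hom : ∀ c : ℝ, 0 < c → ∀ x, N (c • x) = c * N x := by
    intro c hc x
    simp only [N]
    rw [smul_pos_part c hc x, norm_smul, Real.norm_of_nonneg hc.le]
  have N_add : ∀ x y, N (x + y) ≤ N x + N y := by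
    intro x y
    calc N (x + y) ≤ ‖(x ⊔ 0) + (y ⊔ 0)‖ := by
          apply norm_mono le_sup_right
          exact sup_le (add_le_add le_sup_left le_sup_left)
            (add_nonneg le_sup_right le_sup_right)
      _ ≤ N x + N y := norm_add_le _ _
  obtain ⟨g, hg1, hg2⟩ := exists_extension_of_le_sublinear
    (LinearPMap.mkSpanSingleton x₀ ‖x₀‖ h0) N N_hom N_add (by
      rintro ⟨z, hz⟩
      obtain ⟨t, rfl⟩ := Submodule.mem_span_singleton.mp hz
      have h1 : (LinearPMap.mkSpanSingleton x₀ ‖x₀‖ h0) ⟨t • x₀, hz⟩ = t • ‖x₀‖ :=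
        LinearPMap.mkSpanSingleton'_apply _ _ _ _ _
      rw [h1]
      show t • ‖x₀‖ ≤ N (t • x₀)
      rcases le_or_gt t 0 with ht | ht
      · calc t • ‖x₀‖ ≤ 0 := by
              rw [smul_eq_mul]; exact mul_nonpos_of_nonpos_of_nonneg ht (norm_nonneg _)
          _ ≤ N (t • x₀) := norm_nonneg _
      · rw [N_hom t ht]
        have : N x₀ = ‖x₀‖ := by
          simp only [N]; rw [sup_eq_left.mpr hx₀]
        rw [this, smul_eq_mul])
  have hg0 : g x₀ = ‖x₀‖ := by
    have h1 := hg1 ⟨x₀, Submodule.mem_span_singleton_self (R := ℝ) x₀⟩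
    exact h1.trans (LinearPMap.mkSpanSingleton_apply ℝ ℝ h0 ‖x₀‖)
  have hpos : ∀ x, 0 ≤ x → 0 ≤ g x := by
    intro x hx
    have h1 := hg2 (-x)
    have h2 : N (-x) = 0 := by
      simp only [N]
      rw [sup_eq_right.mpr (neg_nonpos.mpr hx), norm_zero]
    rw [h2, map_neg] at h1
    linarith
  have hle : ∀ x, g x ≤ ‖x‖ := fun x => (hg2 x).trans (N_le x)
  refine ⟨g.mkContinuous 1 ?_, ?_, ?_, ?_⟩
  · intro x
    rw [one_mul, Real.norm_eq_abs, abs_le]
    constructor
    · have := hle (-x)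
      rw [map_neg, norm_neg] at this
      linarith
    · exact hle x
  · intro x hx; exact hpos x hx
  · intro x; exact hle x
  · exact hg0

lemma partialSups_le_sum (x : ℕ → E) (hx : ∀ n, 0 ≤ x n) (m : ℕ) :
    partialSups x m ≤ ∑ k ∈ Finset.range (m + 1), x k := by
  induction m with
  | zero => simp
  | succ m ih =>
    rw [partialSups_add_one, Finset.sum_range_succ]
    apply sup_le
    · exact ih.trans (le_add_of_nonneg_right (hx _))
    · exact le_add_of_nonneg_left (Finset.sum_nonneg fun i _ => hx i)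

/-- One scale of the control functional. -/
lemma exists_functional_scale
    (hoc : ∀ x : ℕ → E, Monotone x → BddAbove (Set.range x) → ∃ y, Tendsto x atTop (𝓝 y))
    (e : E) (ε : ℝ) (hε : 0 < ε) :
    ∃ f : E →L[ℝ] ℝ, (∀ x, 0 ≤ x → 0 ≤ f x) ∧ ∃ δ > 0, ∀ x, 0 ≤ x → x ≤ e → f x < δ →
      ‖x‖ < ε := by
  by_contra hcon
  push Not at hcon
  -- choice of points and norming functionals
  choose! X hX0 hXe hXlt hXε using hcon
  choose! G hGpos hGle hGx using fun x : E => fun hx : 0 ≤ x => exists_pos_norming x hx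
  -- the recursion
  let F : ℕ → (E →L[ℝ] ℝ) := fun n => Nat.rec 0 (fun n F => F + G (X F ((1 / 2 : ℝ) ^ n))) n
  have hF0 : F 0 = 0 := rfl
  have hFs : ∀ n, F (n + 1) = F n + G (X (F n) ((1 / 2 : ℝ) ^ n)) := fun n => rfl
  have hFpos : ∀ n, ∀ x, 0 ≤ x → 0 ≤ F n x := by
    intro n
    induction n with
    | zero => intro x hx; simp [hF0]
    | succ n ih =>
      intro x hx
      rw [hFs, add_apply]
      exact add_nonneg (ih x hx) (hGpos _ (hX0 _ ih _ (by positivity)) x hx)
  let x : ℕ → E := fun n => X (F n) ((1 / 2 : ℝ) ^ n)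
  have hx0 : ∀ n, 0 ≤ x n := fun n => hX0 _ (hFpos n) _ (by positivity)
  have hxe : ∀ n, x n ≤ e := fun n => hXe _ (hFpos n) _ (by positivity)
  have hxlt : ∀ n, F n (x n) < (1 / 2 : ℝ) ^ n := fun n => hXlt _ (hFpos n) _ (by positivity)
  have hxε : ∀ n, ε ≤ ‖x n‖ := fun n => hXε _ (hFpos n) _ (by positivity)
  let f : ℕ → (E →L[ℝ] ℝ) := fun n => G (x n)
  have hfpos : ∀ n, ∀ z, 0 ≤ z → 0 ≤ f n z := fun n => hGpos _ (hx0 n)
  have hfle : ∀ n, ∀ z, f n z ≤ ‖z‖ := fun n => hGle _ (hx0 n)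
  have hfx : ∀ n, f n (x n) = ‖x n‖ := fun n => hGx _ (hx0 n)
  have hfF : ∀ j n, j < n → ∀ z, 0 ≤ z → f j z ≤ F n z := by
    intro j n hjn
    induction n with
    | zero => omega
    | succ n ih =>
      intro z hz
      rw [hFs, add_apply]
      rcases Nat.lt_succ_iff_lt_or_eq.mp hjn with h | h
      · exact (ih h z hz).trans (le_add_of_nonneg_right (hfpos n z hz))
      · subst h
        exact le_add_of_nonneg_left (hFpos j z hz)
  -- the suprema of tails
  let s : ℕ → ℕ → E := fun n m => partialSups (fun k => x (n + k)) m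
  have hs_mono : ∀ n, Monotone (s n) := fun n => (partialSups (fun k => x (n + k))).monotone
  have hs_le : ∀ n m, s n m ≤ e := fun n m => partialSups_le _ _ _ (fun k _ => hxe _)
  have hs_nonneg : ∀ n m, 0 ≤ s n m := fun n m =>
    (hx0 (n + 0)).trans (le_partialSups_of_le (fun k => x (n + k)) (Nat.zero_le m))
  have hy : ∀ n, ∃ y, Tendsto (s n) atTop (𝓝 y) := fun n =>
    hoc (s n) (hs_mono n) ⟨e, by rintro _ ⟨m, rfl⟩; exact hs_le n m⟩
  choose y hy using hy
  have hsy : ∀ n m, s n m ≤ y n := fun n m => (hs_mono n).ge_of_tendsto (hy n) m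
  have hxy : ∀ n, x n ≤ y n := fun n => by
    have := hsy n 0
    simpa [s] using this
  have hy0 : ∀ n, 0 ≤ y n := fun n => (hx0 n).trans (hxy n)
  have hy_anti : ∀ n, y (n + 1) ≤ y n := by
    intro n
    apply le_of_tendsto' (hy (n + 1))
    intro m
    refine le_trans ?_ (hsy n (m + 1))
    apply partialSups_le
    intro k hk
    have h1 : n + 1 + k = n + (k + 1) := by omega
    have h2 := le_partialSups_of_le (fun k => x (n + k)) (show k + 1 ≤ m + 1 by omega)
    show x (n + 1 + k) ≤ s n (m + 1)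
    rw [h1]
    exact h2
  have hyanti : Antitone y := antitone_nat_of_succ_le hy_anti
  obtain ⟨w, hw⟩ := hoc (fun n => - y n) (fun a b hab => neg_le_neg (hyanti hab))
    ⟨0, by rintro _ ⟨n, rfl⟩; exact neg_nonpos.mpr (hy0 n)⟩
  have hyw : Tendsto y atTop (𝓝 (-w)) := by
    have := hw.neg
    simpa using this
  -- bound on the functionals
  have hsum : ∀ j n, j < n → f j (y n) ≤ 2 * (1 / 2 : ℝ) ^ n := by
    intro j n hjn
    apply le_of_tendsto' (((f j).continuous.tendsto _).comp (hy n))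
    intro m
    have h1 : f j (s n m) ≤ ∑ k ∈ Finset.range (m + 1), f j (x (n + k)) := by
      have h2 := partialSups_le_sum (fun k => x (n + k)) (fun k => hx0 _) m
      have h3 : 0 ≤ f j (∑ k ∈ Finset.range (m + 1), x (n + k) - s n m) :=
        hfpos j _ (sub_nonneg.mpr h2)
      rw [map_sub, map_sum] at h3
      linarith
    refine h1.trans ?_
    have h4 : ∀ k, f j (x (n + k)) ≤ (1 / 2 : ℝ) ^ (n + k) := fun k =>
      (hfF j (n + k) (by omega) _ (hx0 _)).trans (hxlt _).le
    calc ∑ k ∈ Finset.range (m + 1), f j (x (n + k))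
        ≤ ∑ k ∈ Finset.range (m + 1), (1 / 2 : ℝ) ^ (n + k) := Finset.sum_le_sum fun k _ => h4 k
      _ = (1 / 2 : ℝ) ^ n * ∑ k ∈ Finset.range (m + 1), (1 / 2 : ℝ) ^ k := by
          rw [Finset.mul_sum]; exact Finset.sum_congr rfl fun k _ => pow_add _ _ _
      _ ≤ (1 / 2 : ℝ) ^ n * 2 := by
          apply mul_le_mul_of_nonneg_left _ (by positivity)
          rw [geom_sum_eq (by norm_num)]
          have : (0 : ℝ) < (1 / 2) ^ (m + 1) := by positivity
          rw [div_le_iff_of_neg (by norm_num)]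
          linarith
      _ = 2 * (1 / 2 : ℝ) ^ n := mul_comm _ _
  have hfw : ∀ j, f j (-w) ≤ 0 := by
    intro j
    have h1 : Tendsto (fun n => f j (y n)) atTop (𝓝 (f j (-w))) :=
      ((f j).continuous.tendsto _).comp hyw
    have h2 : Tendsto (fun n : ℕ => 2 * (1 / 2 : ℝ) ^ n) atTop (𝓝 (2 * 0)) :=
      (tendsto_pow_atTop_nhds_zero_of_lt_one (by norm_num) (by norm_num)).const_mul 2
    rw [mul_zero] at h2
    refine le_of_tendsto_of_tendsto h1 h2 ?_
    filter_upwards [eventually_gt_atTop j] with n hn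
    exact hsum j n hn
  have hfin : ∀ j, ε ≤ ‖y j - (-w)‖ := by
    intro j
    have h1 : f j (x j) ≤ f j (y j) := by
      have := hfpos j _ (sub_nonneg.mpr (hxy j))
      rw [map_sub] at this
      linarith
    have h2 := hfle j (y j - (-w))
    rw [map_sub] at h2
    have h3 := hxε j
    rw [← hfx j] at h3
    have h4 := hfw j
    linarith
  have hlim : Tendsto (fun j => ‖y j - (-w)‖) atTop (𝓝 0) := by
    have := (tendsto_iff_norm_sub_tendsto_zero).mp hyw
    exact this
  have := ge_of_tendsto' hlim hfin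
  linarith

/-- The control functional of an order interval. -/
lemma exists_control
    (hoc : ∀ x : ℕ → E, Monotone x → BddAbove (Set.range x) → ∃ y, Tendsto x atTop (𝓝 y))
    (e : E) :
    ∃ f : E →L[ℝ] ℝ, (∀ x, 0 ≤ x → 0 ≤ f x) ∧ ∀ ε > 0, ∃ δ > 0, ∀ x, 0 ≤ x → x ≤ e → f x < δ →
      ‖x‖ < ε := by
  have h := fun n : ℕ => exists_functional_scale hoc e (1 / ((n : ℝ) + 1)) (by positivity)
  choose g hgpos δ hδ hgδ using h
  let a : ℕ → ℝ := fun n => (1 / 2 : ℝ) ^ n * (1 + ‖g n‖)⁻¹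
  have ha : ∀ n, 0 < a n := fun n => by positivity
  let G : ℕ → (E →L[ℝ] ℝ) := fun n => a n • g n
  have hGn : ∀ n, ‖G n‖ ≤ (1 / 2 : ℝ) ^ n := by
    intro n
    simp only [G, a, norm_smul, norm_mul, norm_inv, norm_pow]
    rw [Real.norm_of_nonneg (by norm_num : (0 : ℝ) ≤ 1 / 2),
      Real.norm_of_nonneg (by positivity : (0 : ℝ) ≤ 1 + ‖g n‖), mul_assoc]
    apply mul_le_of_le_one_right (by positivity)
    rw [inv_mul_le_one₀ (by positivity)]
    linarith [norm_nonneg (g n)]
  have hsum : Summable G :=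
    Summable.of_norm_bounded (summable_geometric_of_lt_one (by norm_num) (by norm_num)) hGn
  have happly : ∀ x, HasSum (fun n => G n x) ((∑' n, G n) x) := by
    intro x
    have := hsum.hasSum.mapL (ContinuousLinearMap.apply ℝ ℝ x)
    simpa using this
  refine ⟨∑' n, G n, ?_, ?_⟩
  · intro x hx
    exact (happly x).nonneg fun n => by
      simp only [G, smul_apply, smul_eq_mul]
      exact mul_nonneg (ha n).le (hgpos n x hx)
  · intro ε hε
    obtain ⟨n, hn⟩ := exists_nat_one_div_lt hε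
    refine ⟨a n * δ n, mul_pos (ha n) (hδ n), ?_⟩
    intro x hx hxe hlt
    refine lt_trans (hgδ n x hx hxe ?_) hn
    have h1 : G n x ≤ (∑' n, G n) x :=
      le_hasSum (happly x) n fun k _ => by
        simp only [G, smul_apply, smul_eq_mul]
        exact mul_nonneg (ha k).le (hgpos k x hx)
    simp only [G, smul_apply, smul_eq_mul] at h1
    have h2 : a n * g n x < a n * δ n := lt_of_le_of_lt h1 hlt
    exact lt_of_mul_lt_mul_left h2 (ha n).le

end aux

/-- Let `E` be a Banach lattice such that every monotone order bounded sequence converges in norm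
and let `μ` be a monotone set function on a σ-algebra with values in `E`, `μ ∅ = 0`. Then there is
a positive functional `f` such that `μ` is absolutely continuous with respect to the capacity
`f ∘ μ`. -/
theorem result {X : Type*} [MeasurableSpace X]
    {E : Type*} [NormedAddCommGroup E] [NormedSpace ℝ E] [CompleteSpace E] [Lattice E]
    [IsOrderedAddMonoid E] [IsOrderedModule ℝ E] [HasSolidNorm E]
    (hoc : ∀ x : ℕ → E, Monotone x → BddAbove (Set.range x) → ∃ y, Tendsto x atTop (𝓝 y))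
    (μ : Set X → E) (hμ0 : μ ∅ = 0)
    (hμ : ∀ A B : Set X, MeasurableSet A → MeasurableSet B → A ⊆ B → μ A ≤ μ B) :
    ∃ f : E →L[ℝ] ℝ, (∀ x, 0 ≤ x → 0 ≤ f x) ∧
      ∀ ε > 0, ∃ δ > 0, ∀ A : Set X, MeasurableSet A → f (μ A) < δ → ‖μ A‖ < ε := by
  obtain ⟨f, hf, hfc⟩ := exists_control hoc (μ Set.univ)
  refine ⟨f, hf, fun ε hε => ?_⟩
  obtain ⟨δ, hδ, h⟩ := hfc ε hε
  refine ⟨δ, hδ, fun A hA hlt => h (μ A) ?_ ?_ hlt⟩
  · rw [← hμ0]; exact hμ _ _ MeasurableSet.empty hA (Set.empty_subset A)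
  · exact hμ _ _ hA MeasurableSet.univ (Set.subset_univ A)

end Pool.Agent.Results.MP_e24518_an.ControlFunctional
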